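import Pool.Agent.K3h5.FF.Stm

/-!
# FF, analysis part of the brick MLIM (helper18 for helper36 and helper5): means of the density over
small squares
-/

set_option autoImplicit false

open MeasureTheory Filter Topology ProbabilityTheory Set
open scoped Interval

namespace Pool.Agent.K3h18.FF

open Pool.Agent.K3h5.FF

/-- means of a continuous function over small squares -/
lemma mean_lim {F : ℝ → ℝ → ℝ} (hF : Continuous fun z : ℝ × ℝ => F z.1 z.2) {a c : ℝ → ℝ}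
    {x₀ y₀ : ℝ} (ha : Tendsto a (𝓝[>] 0) (𝓝 x₀)) (hc : Tendsto c (𝓝[>] 0) (𝓝 y₀)) :
    Tendsto (fun ε : ℝ => (∫ s in (a ε)..(a ε + ε), ∫ t in (c ε)..(c ε + ε), F s t) / ε ^ 2)
      (𝓝[>] 0) (𝓝 (F x₀ y₀)) := by
  rw [Metric.tendsto_nhds]
  intro η hη
  obtain ⟨δ, hδ, hδF⟩ := Metric.continuous_iff.mp hF (x₀, y₀) (η / 2) (half_pos hη)
  have h1 : ∀ᶠ ε in 𝓝[>] (0 : ℝ), dist (a ε) x₀ < δ / 2 := Metric.tendsto_nhds.mp ha _ (half_pos hδ)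
  have h2 : ∀ᶠ ε in 𝓝[>] (0 : ℝ), dist (c ε) y₀ < δ / 2 := Metric.tendsto_nhds.mp hc _ (half_pos hδ)
  have h3 : ∀ᶠ ε in 𝓝[>] (0 : ℝ), ε < δ / 2 :=
    nhdsWithin_le_nhds (eventually_lt_nhds (half_pos hδ))
  filter_upwards [h1, h2, h3, self_mem_nhdsWithin] with ε e1 e2 e3 e4
  have e4' : 0 < ε := e4
  have hpt : ∀ s ∈ Ι (a ε) (a ε + ε), ∀ t ∈ Ι (c ε) (c ε + ε), ‖F s t - F x₀ y₀‖ ≤ η / 2 := by
    intro s hs t ht
    rw [uIoc_of_le (by linarith)] at hs ht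
    rw [Real.dist_eq, abs_lt] at e1 e2
    have h4 : dist ((s, t) : ℝ × ℝ) (x₀, y₀) < δ := by
      rw [Prod.dist_eq, max_lt_iff, Real.dist_eq, Real.dist_eq, abs_lt, abs_lt]
      refine ⟨⟨?_, ?_⟩, ⟨?_, ?_⟩⟩ <;> simp only <;> linarith [hs.1, hs.2, ht.1, ht.2]
    have h5 := hδF _ h4
    rw [Real.dist_eq] at h5
    exact h5.le
  have hc1 : ∀ s, Continuous fun t => F s t := fun s =>
    hF.comp (Continuous.prodMk continuous_const continuous_id)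
  have hc2 : Continuous fun s => ∫ t in (c ε)..(c ε + ε), F s t :=
    intervalIntegral.continuous_parametric_intervalIntegral_of_continuous' hF _ _
  have hin : ∀ s ∈ Ι (a ε) (a ε + ε), ‖(∫ t in (c ε)..(c ε + ε), F s t) - ε * F x₀ y₀‖ ≤
      η / 2 * ε := by
    intro s hs
    have h6 : (∫ t in (c ε)..(c ε + ε), F s t) - ε * F x₀ y₀ =
        ∫ t in (c ε)..(c ε + ε), (F s t - F x₀ y₀) := by
      rw [intervalIntegral.integral_sub ((hc1 s).intervalIntegrable _ _)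
        (continuous_const.intervalIntegrable _ _), intervalIntegral.integral_const]
      simp
    rw [h6]
    have h7 := intervalIntegral.norm_integral_le_of_norm_le_const (hpt s hs)
    rwa [add_sub_cancel_left, abs_of_pos e4'] at h7
  have hout : ‖(∫ s in (a ε)..(a ε + ε), ∫ t in (c ε)..(c ε + ε), F s t) - ε ^ 2 * F x₀ y₀‖ ≤
      η / 2 * ε * ε := by
    have h6 : (∫ s in (a ε)..(a ε + ε), ∫ t in (c ε)..(c ε + ε), F s t) - ε ^ 2 * F x₀ y₀ =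
        ∫ s in (a ε)..(a ε + ε), ((∫ t in (c ε)..(c ε + ε), F s t) - ε * F x₀ y₀) := by
      rw [intervalIntegral.integral_sub (hc2.intervalIntegrable _ _)
        (continuous_const.intervalIntegrable _ _), intervalIntegral.integral_const]
      simp
      ring
    rw [h6]
    have h7 := intervalIntegral.norm_integral_le_of_norm_le_const hin
    rwa [add_sub_cancel_left, abs_of_pos e4'] at h7
  have he2 : 0 < ε ^ 2 := by positivity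
  rw [Real.dist_eq]
  have h8 : (∫ s in (a ε)..(a ε + ε), ∫ t in (c ε)..(c ε + ε), F s t) / ε ^ 2 - F x₀ y₀ =
      ((∫ s in (a ε)..(a ε + ε), ∫ t in (c ε)..(c ε + ε), F s t) - ε ^ 2 * F x₀ y₀) / ε ^ 2 := by
    field_simp
  rw [h8, abs_div, abs_of_pos he2, div_lt_iff₀ he2]
  rw [Real.norm_eq_abs] at hout
  nlinarith

/-- means of a function which is continuous on the unit square -/
lemma mean_lim_on {F : ℝ → ℝ → ℝ}
    (hF : ContinuousOn (fun z : ℝ × ℝ => F z.1 z.2) (Icc 0 1 ×ˢ Icc 0 1)) {a c : ℝ → ℝ}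
    {x₀ y₀ : ℝ} (hx : x₀ ∈ Icc (0 : ℝ) 1) (hy : y₀ ∈ Icc (0 : ℝ) 1)
    (ha : Tendsto a (𝓝[>] 0) (𝓝 x₀)) (hc : Tendsto c (𝓝[>] 0) (𝓝 y₀))
    (ha1 : ∀ᶠ ε in 𝓝[>] (0 : ℝ), 0 ≤ a ε ∧ a ε + ε ≤ 1)
    (hc1 : ∀ᶠ ε in 𝓝[>] (0 : ℝ), 0 ≤ c ε ∧ c ε + ε ≤ 1) :
    Tendsto (fun ε : ℝ => (∫ s in (a ε)..(a ε + ε), ∫ t in (c ε)..(c ε + ε), F s t) / ε ^ 2)
      (𝓝[>] 0) (𝓝 (F x₀ y₀)) := by
  set p : ℝ → ℝ := fun x => (projIcc (0 : ℝ) 1 zero_le_one x : ℝ) with hp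
  have hpc : Continuous p := continuous_subtype_val.comp continuous_projIcc
  have hp1 : ∀ x ∈ Icc (0 : ℝ) 1, p x = x := fun x hx => by
    simp only [hp]
    rw [projIcc_of_mem _ hx]
  have hG : Continuous fun z : ℝ × ℝ => (fun s t => F (p s) (p t)) z.1 z.2 := by
    have h1 : Continuous fun z : ℝ × ℝ => ((p z.1, p z.2) : ℝ × ℝ) :=
      (hpc.comp continuous_fst).prodMk (hpc.comp continuous_snd)
    exact hF.comp_continuous h1 fun z =>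
      ⟨(projIcc (0 : ℝ) 1 zero_le_one z.1).2, (projIcc (0 : ℝ) 1 zero_le_one z.2).2⟩
  have h := mean_lim (F := fun s t => F (p s) (p t)) hG ha hc
  simp only [hp1 _ hx, hp1 _ hy] at h
  refine h.congr' ?_
  filter_upwards [ha1, hc1, self_mem_nhdsWithin] with ε e1 e2 e4
  have e4' : 0 < ε := e4
  congr 1
  refine intervalIntegral.integral_congr fun s hs => ?_
  refine intervalIntegral.integral_congr fun t ht => ?_
  rw [uIcc_of_le (by linarith)] at hs ht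
  have hs' : s ∈ Icc (0 : ℝ) 1 := ⟨e1.1.trans hs.1, hs.2.trans e1.2⟩
  have ht' : t ∈ Icc (0 : ℝ) 1 := ⟨e2.1.trans ht.1, ht.2.trans e2.2⟩
  simp only [hp1 _ hs', hp1 _ ht']

lemma tend_eps (j : ℝ) : Tendsto (fun ε : ℝ => j * ε) (𝓝[>] 0) (𝓝 0) := by
  have h : Tendsto (fun ε : ℝ => j * ε) (𝓝 0) (𝓝 (j * 0)) := (continuous_const_mul j).tendsto 0
  rw [mul_zero] at h
  exact h.mono_left nhdsWithin_le_nhds

lemma ev_le {x : ℝ} (hx : x < 1) (K : ℝ) : ∀ᶠ ε in 𝓝[>] (0 : ℝ), x + K * ε ≤ 1 := by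
  have h : Tendsto (fun ε : ℝ => x + K * ε) (𝓝[>] 0) (𝓝 (x + 0)) :=
    tendsto_const_nhds.add (tend_eps K)
  rw [add_zero] at h
  exact (h.eventually (gt_mem_nhds hx)).mono fun ε hε => hε.le

/-- squares at the diagonal -/
theorem sq_lim (hGU : S_GU) (β x : ℝ) (hx : x ∈ Ioo (0 : ℝ) 1) :
    Tendsto (fun ε : ℝ => (∫ s in x..(x + ε), ∫ t in x..(x + ε), dens β s t) / ε ^ 2)
      (𝓝[>] 0) (𝓝 (dens β x x)) := by
  obtain ⟨-, -, -, -, -, hcont, -⟩ := hGU β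
  have h1 : ∀ᶠ ε in 𝓝[>] (0 : ℝ), 0 ≤ x ∧ x + ε ≤ 1 :=
    (ev_le hx.2 1).mono fun ε hε => ⟨hx.1.le, by rwa [one_mul] at hε⟩
  exact mean_lim_on (F := fun s t => dens β s t) hcont ⟨hx.1.le, hx.2.le⟩ ⟨hx.1.le, hx.2.le⟩
    tendsto_const_nhds tendsto_const_nhds h1 h1

/-- squares at the front -/
theorem fr_lim (hGU : S_GU) (β x : ℝ) (hx : x ∈ Ioo (0 : ℝ) 1) (j : ℕ) :
    Tendsto (fun ε : ℝ => (∫ s in (j * ε)..((j + 1) * ε), ∫ t in x..(x + ε), dens β s t) / ε ^ 2)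
      (𝓝[>] 0) (𝓝 (dens β 0 x)) := by
  obtain ⟨-, -, -, -, -, hcont, -⟩ := hGU β
  have h1 : ∀ᶠ ε in 𝓝[>] (0 : ℝ), 0 ≤ x ∧ x + ε ≤ 1 :=
    (ev_le hx.2 1).mono fun ε hε => ⟨hx.1.le, by rwa [one_mul] at hε⟩
  have h2 : ∀ᶠ ε in 𝓝[>] (0 : ℝ), 0 ≤ (j : ℝ) * ε ∧ (j : ℝ) * ε + ε ≤ 1 := by
    filter_upwards [ev_le zero_lt_one ((j : ℝ) + 1), self_mem_nhdsWithin] with ε e1 e2
    have e2' : 0 < ε := e2
    exact ⟨by positivity, by linarith⟩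
  have h := mean_lim_on (F := fun s t => dens β s t) hcont (x₀ := 0) (y₀ := x)
    ⟨le_rfl, zero_le_one⟩ ⟨hx.1.le, hx.2.le⟩ (a := fun ε => (j : ℝ) * ε) (c := fun _ => x)
    (tend_eps j) tendsto_const_nhds h2 h1
  refine h.congr fun ε => ?_
  rw [show ((j : ℝ) + 1) * ε = (j : ℝ) * ε + ε by ring]

end Pool.Agent.K3h18.FF
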