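import Pool.Agent.K3h5.FF.Stm

/-!
# FF brick ETL (helper18 for helper5): the expected number of occurrences converges
-/

set_option autoImplicit false

open MeasureTheory Filter Topology ProbabilityTheory Set

namespace Pool.Agent.K3h18.FF

open Pool.Agent.K3h5.FF

lemma pr_nonneg {n : ℕ} {P : Equiv.Perm (Fin n) → ℝ} (h : ∀ π, 0 ≤ P π)
    (A : Set (Equiv.Perm (Fin n))) : 0 ≤ pr P A := by
  unfold pr
  refine Finset.sum_nonneg fun π _ => ?_
  split_ifs
  · exact h π
  · exact le_rfl

lemma occ_empty_of_not_frontInj {l : ℕ} {u : Fin l → Label} (hu : ¬ FrontInj u) {n : ℕ} (S : ℕ)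
    (π : Equiv.Perm (Fin n)) : occ (LabT S π) u = ∅ := by
  rw [Set.eq_empty_iff_forall_notMem]
  rintro z ⟨hz, hL⟩
  apply hu
  intro i i' j hi hi'
  by_contra hne
  have h1 := (hL i).1
  have h2 := (hL i').1
  rw [hi] at h1
  rw [hi'] at h2
  obtain ⟨p, hp, hpz⟩ := h1
  obtain ⟨p', hp', hpz'⟩ := h2
  have hpp : p = p' := Fin.ext (hp.trans hp'.symm)
  subst hpp
  exact hne (hz.injective (hpz.symm.trans hpz'))

lemma pow_le_descFactorial {n l : ℕ} (h : 2 * l ≤ n) :
    (n : ℝ) ^ l ≤ 2 ^ l * (n.descFactorial l : ℝ) := by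
  have h1 := Nat.pow_sub_le_descFactorial n l
  have h2 : n ≤ 2 * (n + 1 - l) := by omega
  have h3 : n ^ l ≤ 2 ^ l * n.descFactorial l := by
    calc n ^ l ≤ (2 * (n + 1 - l)) ^ l := Nat.pow_le_pow_left h2 l
      _ = 2 ^ l * (n + 1 - l) ^ l := by rw [mul_pow]
      _ ≤ _ := Nat.mul_le_mul_left _ h1
  exact_mod_cast h3

lemma eventually_floor_lt {x y : ℝ} (h : x < y) :
    ∀ᶠ n : ℕ in atTop, ⌊(n : ℝ) * x⌋ < ⌊(n : ℝ) * y⌋ := by
  have h1 : Tendsto (fun n : ℕ => (n : ℝ) * (y - x)) atTop atTop :=
    tendsto_natCast_atTop_atTop.atTop_mul_const (sub_pos.mpr h)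
  filter_upwards [h1.eventually_ge_atTop 1] with n hn
  have h2 : (n : ℝ) * x + 1 ≤ (n : ℝ) * y := by linarith
  have h3 := Int.floor_le_floor h2
  rw [Int.floor_add_one] at h3
  omega

lemma eventually_lt_floor {x : ℝ} (h : 0 < x) (k : ℤ) :
    ∀ᶠ n : ℕ in atTop, k < ⌊(n : ℝ) * x⌋ := by
  have h1 : Tendsto (fun n : ℕ => (n : ℝ) * x) atTop atTop :=
    tendsto_natCast_atTop_atTop.atTop_mul_const h
  filter_upwards [h1.eventually_ge_atTop ((k : ℝ) + 1)] with n hn
  have h3 : (k + 1 : ℤ) ≤ ⌊(n : ℝ) * x⌋ := Int.le_floor.mpr (by push_cast; exact hn)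
  omega

lemma ae_ne {l : ℕ} {i j : Fin l} (hij : i ≠ j) :
    ∀ᵐ x : Fin l → ℝ, x i ≠ x j := by
  set E : Submodule ℝ (Fin l → ℝ) :=
    LinearMap.ker ((LinearMap.proj i : (Fin l → ℝ) →ₗ[ℝ] ℝ) -
      (LinearMap.proj j : (Fin l → ℝ) →ₗ[ℝ] ℝ)) with hE
  have h1 : E ≠ ⊤ := by
    intro h
    have h2 : (Pi.single i (1 : ℝ) : Fin l → ℝ) ∈ E := h ▸ Submodule.mem_top
    rw [hE, LinearMap.mem_ker] at h2
    simp [hij.symm] at h2
  have h2 : volume (E : Set (Fin l → ℝ)) = 0 := Measure.addHaar_submodule _ E h1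
  rw [ae_iff]
  convert h2 using 2
  ext x
  simp [hE, sub_eq_zero]

lemma measurableSet_strictMono (l : ℕ) : MeasurableSet {x : Fin l → ℝ | StrictMono x} := by
  have h : {x : Fin l → ℝ | StrictMono x} = ⋂ i : Fin l, ⋂ j : Fin l, {x | i < j → x i < x j} := by
    ext x
    simp [StrictMono]
  rw [h]
  refine MeasurableSet.iInter fun i => MeasurableSet.iInter fun j => ?_
  by_cases hij : i < j
  · simp only [hij, true_imp_iff]
    exact measurableSet_lt (measurable_pi_apply i) (measurable_pi_apply j)
  · simp [hij]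

open Classical in
/-- ETL -/
theorem t_ETL : S_RIE → S_ETB → S_ETL := by
  intro hrie hetb P lam phi hM S l u
  obtain ⟨C, hC1, hC⟩ := hM.bound
  obtain ⟨hb1, -, hb3⟩ := hetb P C hC1 hM.nonneg hC
  by_cases hu : FrontInj u
  · set f : ℕ → (Fin l → ℤ) → ℝ := fun n a => (n : ℝ) ^ l *
      (if StrictMono a ∧ ∀ i, (2 * S : ℤ) < a i then
        pr (P n) {π | ∀ i, LabP π (u i) (a i)} else 0) with hf
    set G : (Fin l → ℝ) → ℝ := {x : Fin l → ℝ | StrictMono x}.indicator
      (fun x => ∏ i, rho lam phi (u i) (x i)) with hG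
    have key := hrie l f ((2 : ℝ) ^ l * C ^ l) G ?_ ?_
    · have hmom : (∫ x in {x : Fin l → ℝ | ∀ i, x i ∈ Ioo (0 : ℝ) 1}, G x) = mom lam phi u := by
        rw [hG, setIntegral_indicator (measurableSet_strictMono l)]
        unfold mom
        rw [if_pos hu]
        congr 2
        ext x
        simp only [Set.mem_inter_iff, Set.mem_ofPred_eq]
        exact and_comm
      rw [← hmom]
      refine key.congr' ?_
      filter_upwards [eventually_gt_atTop 0] with n hn
      have hn' : (0 : ℝ) < (n : ℝ) ^ l := by positivity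
      rw [hb3 S n l u, Finset.sum_div]
      refine Finset.sum_congr rfl fun a _ => ?_
      simp only [hf]
      rw [mul_div_assoc, mul_div_left_comm, div_self hn'.ne', mul_one]
      have hiff : (StrictMono (fun i => ((a i : ℕ) : ℤ)) ∧ ∀ i, (2 * S : ℤ) < ((a i : ℕ) : ℤ)) ↔
          (StrictMono a ∧ ∀ i, 2 * S < (a i).val) := by
        constructor
        · rintro ⟨h1, h2⟩
          refine ⟨fun i j hij => ?_, fun i => ?_⟩
          · have := h1 hij
            simp only at this
            exact_mod_cast this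
          · exact_mod_cast h2 i
        · rintro ⟨h1, h2⟩
          refine ⟨fun i j hij => ?_, fun i => ?_⟩
          · have : (a i : ℕ) < (a j : ℕ) := h1 hij
            simp only
            exact_mod_cast this
          · exact_mod_cast h2 i
      by_cases hcond : StrictMono a ∧ ∀ i, 2 * S < (a i).val
      · rw [if_pos hcond, if_pos (hiff.mpr hcond)]
      · rw [if_neg hcond, if_neg (fun h => hcond (hiff.mp h))]
    · filter_upwards [eventually_ge_atTop (2 * l)] with n hn a
      simp only [hf]
      have hC0 : (0 : ℝ) ≤ C ^ l := by positivity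
      split_ifs with h
      · have h0 := pr_nonneg (hM.nonneg n) {π | ∀ i, LabP π (u i) (a i)}
        have h1 := hb1 n l u a h.1.injective
        have hd : (0 : ℝ) < (n.descFactorial l : ℝ) := by
          have : 0 < n.descFactorial l := Nat.descFactorial_pos.mpr (by omega)
          exact_mod_cast this
        have h2 := pow_le_descFactorial hn
        rw [abs_of_nonneg (by positivity)]
        calc (n : ℝ) ^ l * pr (P n) {π | ∀ i, LabP π (u i) (a i)}
            ≤ (2 ^ l * (n.descFactorial l : ℝ)) * (C ^ l / (n.descFactorial l : ℝ)) :=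
              mul_le_mul h2 h1 h0 (by positivity)
          _ = 2 ^ l * C ^ l := by field_simp
      · rw [mul_zero, abs_zero]
        positivity
    · have hae : ∀ᵐ x : Fin l → ℝ, ∀ i j : Fin l, i ≠ j → x i ≠ x j := by
        rw [ae_all_iff]
        intro i
        rw [ae_all_iff]
        intro j
        by_cases hij : i = j
        · exact Eventually.of_forall fun x h => absurd hij h
        · filter_upwards [ae_ne hij] with x hx _ using hx
      have hms : MeasurableSet {x : Fin l → ℝ | ∀ i, x i ∈ Ioo (0 : ℝ) 1} := by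
        have : {x : Fin l → ℝ | ∀ i, x i ∈ Ioo (0 : ℝ) 1} = Set.univ.pi fun _ => Ioo (0 : ℝ) 1 := by
          ext x
          simp
        rw [this]
        exact MeasurableSet.univ_pi fun _ => measurableSet_Ioo
      filter_upwards [ae_restrict_of_ae hae, ae_restrict_mem hms] with x hx hx01
      by_cases hmono : StrictMono x
      · have hGx : G x = ∏ i, rho lam phi (u i) (x i) := by
          rw [hG, Set.indicator_of_mem (show x ∈ {x : Fin l → ℝ | StrictMono x} from hmono)]
        rw [hGx]
        refine (hM.lim l u hu x hmono hx01).congr' ?_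
        have h1 : ∀ᶠ n : ℕ in atTop, ∀ i, (2 * S : ℤ) < ⌊(n : ℝ) * x i⌋ :=
          eventually_all.mpr fun i => eventually_lt_floor (hx01 i).1 _
        have h2 : ∀ᶠ n : ℕ in atTop, ∀ i j, i < j → ⌊(n : ℝ) * x i⌋ < ⌊(n : ℝ) * x j⌋ :=
          eventually_all.mpr fun i => eventually_all.mpr fun j => by
            by_cases hij : i < j
            · exact (eventually_floor_lt (hmono hij)).mono fun n hn _ => hn
            · exact Eventually.of_forall fun n h => absurd h hij
        filter_upwards [h1, h2] with n hn1 hn2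
        simp only [hf]
        rw [if_pos ⟨fun i j hij => hn2 i j hij, hn1⟩]
      · have hGx : G x = 0 := by
          rw [hG, Set.indicator_of_notMem (show x ∉ {x : Fin l → ℝ | StrictMono x} from hmono)]
        rw [hGx]
        refine tendsto_const_nhds.congr' ?_
        have h3 : ∃ i j : Fin l, i < j ∧ x j < x i := by
          by_contra hcon
          push Not at hcon
          exact hmono fun i j hij => lt_of_le_of_ne (hcon i j hij) (hx i j hij.ne)
        obtain ⟨i, j, hij, hji⟩ := h3
        filter_upwards [eventually_floor_lt hji] with n hn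
        simp only [hf]
        rw [if_neg, mul_zero]
        rintro ⟨hs, -⟩
        exact absurd (hs hij) (not_lt.mpr hn.le)
  · have h0 : mom lam phi u = 0 := by
      unfold mom
      rw [if_neg hu]
    rw [h0]
    refine tendsto_const_nhds.congr fun n => ?_
    unfold ET
    symm
    refine Finset.sum_eq_zero fun π _ => ?_
    rw [occ_empty_of_not_frontInj hu]
    simp

end Pool.Agent.K3h18.FF
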