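import Pool.Agent.K3h18.FF.Box

/-!
# FF, conclusion of the brick MLIM (helper18 for helper36 and helper5)
-/

set_option autoImplicit false

open MeasureTheory Filter Topology ProbabilityTheory Set
open scoped Interval

namespace Pool.Agent.K3h18.FF

open Pool.Agent.K3h5.FF

/-- a sequence which is squeezed between `exp (∓ c ε) F ε` up to every `η`, for every small `ε`,
converges to the limit of `F` at `0` -/
theorem squeeze (A : ℕ → ℝ) (F : ℝ → ℝ) (V c : ℝ) (hF : Tendsto F (𝓝[>] 0) (𝓝 V))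
    (h : ∃ ε₀ : ℝ, 0 < ε₀ ∧ ∀ ε, 0 < ε → ε < ε₀ → ∀ η : ℝ, 0 < η → ∀ᶠ n in atTop,
      Real.exp (-(c * ε)) * F ε - η ≤ A n ∧ A n ≤ Real.exp (c * ε) * F ε + η) :
    Tendsto A atTop (𝓝 V) := by
  obtain ⟨ε₀, hε₀, h⟩ := h
  have he : ∀ d : ℝ, Tendsto (fun ε : ℝ => Real.exp (d * ε) * F ε) (𝓝[>] 0) (𝓝 V) := by
    intro d
    have h1 : Tendsto (fun ε : ℝ => Real.exp (d * ε)) (𝓝[>] 0) (𝓝 1) := by
      have h2 := (Real.continuous_exp.tendsto 0).comp (tend_eps d)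
      rw [Real.exp_zero] at h2
      exact h2
    have h3 := h1.mul hF
    rwa [one_mul] at h3
  rw [Metric.tendsto_nhds]
  intro η hη
  have h1 := Metric.tendsto_nhds.mp (he c) (η / 2) (half_pos hη)
  have h2 := Metric.tendsto_nhds.mp (he (-c)) (η / 2) (half_pos hη)
  have h3 : ∀ᶠ ε in 𝓝[>] (0 : ℝ), ε < ε₀ := nhdsWithin_le_nhds (eventually_lt_nhds hε₀)
  obtain ⟨ε, e1, e2, e3, e4⟩ := (h1.and (h2.and (h3.and self_mem_nhdsWithin))).exists
  filter_upwards [h ε e4 e3 (η / 2) (half_pos hη)] with n hn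
  rw [Real.dist_eq, abs_lt] at e1 e2 ⊢
  have e5 : -(c * ε) = -c * ε := by ring
  rw [e5] at hn
  constructor <;> linarith [hn.1, hn.2, e1.1, e1.2, e2.1, e2.2]

end Pool.Agent.K3h18.FF
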