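import Pool.Agent.K3h5.FF.Stm

/-!
# FF brick VAR (helper18 for helper5): the second moment bound
-/

set_option autoImplicit false

open MeasureTheory Filter Topology ProbabilityTheory Set

namespace Pool.Agent.K3h18.FF

open Pool.Agent.K3h5.FF

lemma qn_zero (q : ℝ) : qn q 0 = 0 := by simp [qn]

lemma qn_succ (q : ℝ) (k : ℕ) : qn q (k + 1) = 1 + q * qn q k := by
  unfold qn
  rw [Finset.sum_range_succ', Finset.mul_sum]
  simp only [pow_succ, pow_zero]
  rw [add_comm]
  congr 1
  exact Finset.sum_congr rfl fun i _ => by ring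

lemma qn_add (q : ℝ) (a b : ℕ) : qn q (a + b) = qn q a + q ^ a * qn q b := by
  unfold qn
  rw [Finset.sum_range_add, Finset.mul_sum]
  congr 1
  exact Finset.sum_congr rfl fun i _ => by rw [pow_add]

lemma qn_nonneg {q : ℝ} (hq : 0 < q) (k : ℕ) : 0 ≤ qn q k :=
  Finset.sum_nonneg fun _ _ => by positivity

lemma qn_mono {q : ℝ} (hq : 0 < q) {a b : ℕ} (h : a ≤ b) : qn q a ≤ qn q b := by
  obtain ⟨c, rfl⟩ := Nat.exists_eq_add_of_le h
  rw [qn_add]
  have := mul_nonneg (pow_pos hq a).le (qn_nonneg hq c)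
  linarith

lemma qn_pos {q : ℝ} (hq : 0 < q) {k : ℕ} (hk : 0 < k) : 0 < qn q k := by
  obtain ⟨j, rfl⟩ := Nat.exists_eq_succ_of_ne_zero hk.ne'
  have := mul_nonneg hq.le (qn_nonneg hq j)
  rw [Nat.succ_eq_add_one, qn_succ]
  linarith

lemma qn_sq (q : ℝ) (k : ℕ) : qn q k ^ 2 = qn q k + q * (qn q k * qn q (k - 1)) := by
  cases k with
  | zero => simp [qn_zero]
  | succ j =>
    rw [Nat.add_sub_cancel, qn_succ]
    ring

lemma qn_pred_le {q : ℝ} (_hq : 0 < q) (m : ℕ) : q * qn q (m - 1) ≤ qn q m := by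
  cases m with
  | zero => simp [qn_zero]
  | succ j =>
    rw [Nat.add_sub_cancel, qn_succ]
    linarith

lemma qn_ratio {q : ℝ} (hq : 0 < q) {n t : ℕ} (hn : 0 < n) (ht : t ≤ n) :
    qn q (n - t - 1) * qn q n ≤ qn q (n - t) * qn q (n - 1) := by
  rcases Nat.eq_zero_or_pos (n - t) with h0 | h0
  · simp [h0, qn_zero]
  · obtain ⟨j, hj⟩ := Nat.exists_eq_succ_of_ne_zero h0.ne'
    obtain ⟨i, hi⟩ := Nat.exists_eq_succ_of_ne_zero hn.ne'
    have h1 : n - t - 1 = j := by omega
    have h2 : n - 1 = i := by omega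
    rw [h1, h2, hj, hi, Nat.succ_eq_add_one, Nat.succ_eq_add_one, qn_succ, qn_succ]
    have : qn q j ≤ qn q i := qn_mono hq (by omega)
    nlinarith

/-- VAR -/
theorem t_VAR : S_MOM → S_VAR := by
  intro hmom q hq n t m hn ht hm
  obtain ⟨hF, h1, h2⟩ := hmom q hq n t m ht hm
  set Z : ℝ := ∑ π : Equiv.Perm (Fin n), q ^ inv π with hZ
  have hZ0 : 0 < Z := Finset.sum_pos (fun _ _ => by positivity) Finset.univ_nonempty
  set A : ℝ := qn q n with hA
  have hA0 : 0 < A := qn_pos hq hn
  set M : ℝ := qn q m with hM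
  have hM0 : 0 ≤ M := qn_nonneg hq m
  set F : Equiv.Perm (Fin n) → ℕ := fun π => Fc t m π with hFdef
  set Y : Equiv.Perm (Fin n) → ℝ := fun π => q ^ F π * qn q (m - F π) with hY
  have hYF : ∀ π, qn q (F π) = M - Y π := by
    intro π
    have h := qn_add q (F π) (m - F π)
    rw [Nat.add_sub_cancel' (hF π)] at h
    simp only [hY, hM]
    linarith
  have hYnn : ∀ π, 0 ≤ Y π := fun π => mul_nonneg (by positivity) (qn_nonneg hq _)
  set p : Equiv.Perm (Fin n) → ℝ := fun π => mallows q n π with hp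
  have hpe : ∀ π, p π = q ^ inv π / Z := fun π => rfl
  have hp0 : ∀ π, 0 ≤ p π := fun π => by rw [hpe]; positivity
  have hp1 : ∑ π, p π = 1 := by
    simp only [hpe]
    rw [← Finset.sum_div]
    exact div_self hZ0.ne'
  set e : ℝ := M * q ^ t * qn q (n - t) / A with he
  have he1 : ∑ π, p π * Y π = e := by
    have h3 : ∑ π, p π * Y π = (∑ π, q ^ inv π * Y π) / Z := by
      rw [Finset.sum_div]
      refine Finset.sum_congr rfl fun π _ => ?_
      rw [hpe]
      ring
    rw [h3, he, div_eq_div_iff hZ0.ne' hA0.ne']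
    have h4 : A * ∑ π, q ^ inv π * Y π = Z * (M * q ^ t * qn q (n - t)) := h1
    linarith
  have hAt : A = qn q t + q ^ t * qn q (n - t) := by
    have h := qn_add q t (n - t)
    rw [Nat.add_sub_cancel' ht] at h
    exact h
  have heq : M * qn q t / A = M - e := by
    rw [he]
    field_simp
    rw [hAt]
    ring
  have he0 : 0 ≤ e := by
    rw [he]
    have := qn_nonneg hq (n - t)
    positivity
  have heM : e ≤ M := by
    have h3 : 0 ≤ M * qn q t / A := by
      have := qn_nonneg hq t
      positivity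
    linarith
  -- the second moment
  set B : ℝ := ∑ π, p π * (q ^ (2 * F π) * (qn q (m - F π) * qn q (m - F π - 1))) with hB
  have hY2 : ∀ π, Y π ^ 2 = q ^ F π * Y π +
      q * (q ^ (2 * F π) * (qn q (m - F π) * qn q (m - F π - 1))) := by
    intro π
    have h3 := qn_sq q (m - F π)
    simp only [hY]
    rw [mul_pow, h3]
    ring
  have hvar : ∑ π, p π * (qn q (F π) - M * qn q t / A) ^ 2 = ∑ π, p π * Y π ^ 2 - e ^ 2 := by
    have h3 : ∀ π, p π * (qn q (F π) - M * qn q t / A) ^ 2 =
        p π * Y π ^ 2 - 2 * e * (p π * Y π) + e ^ 2 * p π := by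
      intro π
      rw [heq, hYF]
      ring
    rw [Finset.sum_congr rfl fun π _ => h3 π, Finset.sum_add_distrib, Finset.sum_sub_distrib,
      ← Finset.mul_sum, ← Finset.mul_sum, he1, hp1]
    ring
  have hsec : ∑ π, p π * Y π ^ 2 = ∑ π, p π * (q ^ F π * Y π) + q * B := by
    rw [hB, Finset.mul_sum, ← Finset.sum_add_distrib]
    refine Finset.sum_congr rfl fun π _ => ?_
    rw [hY2]
    ring
  have hfirst : ∑ π, p π * (q ^ F π * Y π) ≤ max 1 (q ^ n) * M := by
    have h3 : ∀ π, p π * (q ^ F π * Y π) ≤ max 1 (q ^ n) * (p π * Y π) := by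
      intro π
      have h4 : q ^ F π ≤ max 1 (q ^ n) := by
        rcases le_total q 1 with h | h
        · exact (pow_le_one₀ hq.le h).trans (le_max_left _ _)
        · exact (pow_le_pow_right₀ h ((hF π).trans hm)).trans (le_max_right _ _)
      have h5 := mul_le_mul_of_nonneg_right h4 (mul_nonneg (hp0 π) (hYnn π))
      calc p π * (q ^ F π * Y π) = q ^ F π * (p π * Y π) := by ring
        _ ≤ _ := h5
    calc ∑ π, p π * (q ^ F π * Y π) ≤ ∑ π, max 1 (q ^ n) * (p π * Y π) :=
          Finset.sum_le_sum fun π _ => h3 π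
      _ = max 1 (q ^ n) * e := by rw [← Finset.mul_sum, he1]
      _ ≤ max 1 (q ^ n) * M := by
          have : (0 : ℝ) ≤ max 1 (q ^ n) := le_trans zero_le_one (le_max_left _ _)
          exact mul_le_mul_of_nonneg_left heM this
  have hsecond : q * B ≤ e ^ 2 := by
    rcases Nat.lt_or_ge n 2 with h3 | h3
    · have hB0 : B = 0 := by
        rw [hB]
        refine Finset.sum_eq_zero fun π _ => ?_
        have h4 : m - F π - 1 = 0 := by omega
        rw [h4, qn_zero]
        ring
      rw [hB0]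
      nlinarith [sq_nonneg e]
    · have hA1 : 0 < qn q (n - 1) := qn_pos hq (by omega)
      have hB1 : B = M * qn q (m - 1) * q ^ (2 * t) * (qn q (n - t) * qn q (n - t - 1)) /
          (A * qn q (n - 1)) := by
        have h4 : B = (∑ π, q ^ inv π *
            (q ^ (2 * F π) * (qn q (m - F π) * qn q (m - F π - 1)))) / Z := by
          rw [hB, Finset.sum_div]
          refine Finset.sum_congr rfl fun π _ => ?_
          rw [hpe]
          ring
        rw [h4, div_eq_div_iff hZ0.ne' (by positivity)]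
        have h5 : A * qn q (n - 1) * ∑ π, q ^ inv π *
            (q ^ (2 * F π) * (qn q (m - F π) * qn q (m - F π - 1))) =
            Z * (M * qn q (m - 1) * q ^ (2 * t) * (qn q (n - t) * qn q (n - t - 1))) := h2
        linarith
      have h6 := qn_pred_le hq m
      have h7 := qn_ratio hq hn ht
      have hnt := qn_nonneg hq (n - t)
      have hnt1 := qn_nonneg hq (n - t - 1)
      have h8 : qn q (n - t - 1) / qn q (n - 1) ≤ qn q (n - t) / A := by
        rw [div_le_div_iff₀ hA1 hA0]
        exact h7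
      have h9 : q * B = (q * qn q (m - 1)) * (qn q (n - t - 1) / qn q (n - 1)) *
          (M * q ^ (2 * t) * qn q (n - t) / A) := by
        rw [hB1]
        field_simp
      have h10 : e ^ 2 = M * (qn q (n - t) / A) * (M * q ^ (2 * t) * qn q (n - t) / A) := by
        rw [he]
        field_simp
        ring
      rw [h9, h10]
      refine mul_le_mul_of_nonneg_right ?_ (by positivity)
      refine mul_le_mul h6 h8 (by positivity) hM0
  calc ∑ π : Equiv.Perm (Fin n), mallows q n π * (qn q (Fc t m π) - qn q m * qn q t / qn q n) ^ 2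
      = ∑ π, p π * (qn q (F π) - M * qn q t / A) ^ 2 := rfl
    _ = ∑ π, p π * (q ^ F π * Y π) + q * B - e ^ 2 := by rw [hvar, hsec]
    _ ≤ max 1 (q ^ n) * M := by linarith

end Pool.Agent.K3h18.FF
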